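import Pool.Agent.H525R4.Mono.OneSet

/-!
# 3SUM-Indexing for one set: quadratic space for monotone data structures

A set of at most `n` integers from `0, …, N`, `N ≥ n ^ 2`, is preprocessed.  A monotone data
structure (`SetDS`) has `s` cells; every cell contains an arbitrary nondecreasing real function of
the set (unlimited preprocessing, unlimited word length).  The query `z` reads cells adaptively and
answers whether `z` is the sum of two elements of the set, by a condition which is nondecreasing in
the contents of the memory.  The data structure may be random: every answer is correct with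
probability at least `1 / 2 + δ`, and if `z` is not such a sum then the expected number of cells
read is at most `t`.

Then `δ ^ 2 * n ^ 2 ≤ 14400 * s * t * log₂ (n / δ)`, if `1200 * t * log₂ (n / δ) ≤ δ * n`.  So
polylogarithmic query time needs space `Ω~(n ^ 2)` in this model.

Proof: a structure for one set gives a structure for two arrays `A`, `B` of `n / 2` integers from
`0, …, K`, by the set which consists of `A` and of `B + 2 K + 1`.  See `Pool.Agent.H525R4.Mono.Sum`
for the bound for two arrays.
-/

namespace Pool.Agent.Results.MP_0427c5_lc.AdaptiveMonotone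

open Pool.Agent.H525R4.Mono

/-- Every randomised monotone data structure with `s` cells which solves 3SUM-Indexing for sets of
at most `n` integers from `0, …, N` with advantage `δ` and `t` probes satisfies
`δ ^ 2 * n ^ 2 ≤ 14400 * s * t * log₂ (n / δ)`. -/
theorem result (n N s : ℕ) (δ t : ℝ) (hδ : 0 < δ) (hδ2 : δ ≤ 1 / 2) (ht : 1 ≤ t)
    (hnt : 1200 * t * Real.logb 2 (n / δ) ≤ δ * n) (hN : n ^ 2 ≤ N)
    (Ω : Type) [Fintype Ω] (p : Ω → ℝ) (D : Ω → SetDS s) (hD : SetSolves n N p D δ t) :
    δ ^ 2 * (n : ℝ) ^ 2 ≤ 14400 * s * t * Real.logb 2 (n / δ) :=
  oneset_lower hδ hδ2 ht hnt hN p D hD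

end Pool.Agent.Results.MP_0427c5_lc.AdaptiveMonotone
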